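import Pool.Agent.H51.HNSeries

namespace Pool.Agent.Results.MP_03a7fb_al.Example
open MvPowerSeries

/-- A non-polynomial Hessian nilpotent power series of order at least `3` in four variables with
`Δ ^ m (P ^ (m + 1)) ≠ 0` for every `m`. -/
theorem result : ∃ P : MvPowerSeries (Fin 4) ℂ,
    (∀ Q : MvPolynomial (Fin 4) ℂ, (Q : MvPowerSeries (Fin 4) ℂ) ≠ P) ∧ 3 ≤ P.order ∧
    IsNilpotent (Matrix.of fun i j : Fin 4 => pderiv ℂ i (pderiv ℂ j P)) ∧
    ∀ m : ℕ, (fun f : MvPowerSeries (Fin 4) ℂ => ∑ i, pderiv ℂ i (pderiv ℂ i f))^[m]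
      (P ^ (m + 1)) ≠ 0 := by
  refine ⟨Pool.Agent.H51.HNSeries.P, Pool.Agent.H51.HNSeries.not_poly,
    Pool.Agent.H51.HNSeries.order_P, Pool.Agent.H51.HNSeries.hess, fun m => ?_⟩
  have := Pool.Agent.H51.HNSeries.not_van m
  rw [Module.End.pow_apply] at this
  rwa [← funext Pool.Agent.H51.HNSeries.lap_apply]

end Pool.Agent.Results.MP_03a7fb_al.Example
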